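import Pool.Agent.W46.HM.Stm2

set_option autoImplicit false

open Finset MeasureTheory
open scoped Classical ENNReal

namespace Pool.Agent.W46.HM

theorem allw (q : ℝ) (h : S_WIN q) : S_ALLW q := by
  intro d hd hq R hR
  obtain ⟨C, hC, hW⟩ := h d hd hq R hR
  have hd0 : (0:ℝ) < d := by
    have : (25:ℝ) ≤ d := by exact_mod_cast hd
    linarith
  have hs : 1 ≤ q - 1/(d:ℝ) := by
    have : (1:ℝ)/d ≤ (16752/10000)/(d:ℝ) := by gcongr; norm_num
    linarith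
  have hq0 : 0 < q := by
    have : (0:ℝ) < 1 / d := by positivity
    linarith
  refine ⟨7 * C, by positivity, ?_⟩
  intro N Ω _ P v b r hN hr hNr hv hsep
  set s : ℝ := q - 1/(d:ℝ) with hsdef
  set K : ℝ := (Fintype.card Ω : ℝ) with hK
  have hK0 : 0 ≤ K := by rw [hK]; positivity
  have hN0 : (0:ℝ) < N := by exact_mod_cast hN
  have hA0 : 0 ≤ C * (N:ℝ)^(-(d:ℝ)) := by positivity
  have hwin : ∀ w : ℤ, ∫⁻ z : ℝ × (Fin d → ℝ) in
      Set.Ico (w:ℝ) (w+1) ×ˢ (Set.univ : Set (Fin d → ℝ)),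
      (∑ ω, (if (|z.1 - b ω| ≤ 3/2 ∧ ∀ k, |z.2 k - (P ω k + z.1 * v ω k)| ≤ r)
        then (1:ℝ≥0∞) else 0)) ^ q ≤
      ENNReal.ofReal (C * (N:ℝ)^(-(d:ℝ)) * K^(s-1)) *
        ∑ ω : Ω, (if |⌊b ω⌋ - w| ≤ 3 then (1:ℝ≥0∞) else 0) := by
    intro w
    have h1 := hW N {ω : Ω // |⌊b ω⌋ - w| ≤ 3} (fun ω => P ω.1) (fun ω => v ω.1) (w:ℝ) r hN hr hNr
      (fun ω k => hv ω.1 k) (fun ω ω' hh => Subtype.ext (hsep ω.1 ω'.1 hh))
    have hcard : (Fintype.card {ω : Ω // |⌊b ω⌋ - w| ≤ 3} : ℝ) =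
        ((Finset.univ.filter (fun ω : Ω => |⌊b ω⌋ - w| ≤ 3)).card : ℝ) := by
      rw [Fintype.card_subtype]
    have h2 : ∫⁻ z : ℝ × (Fin d → ℝ) in
      Set.Ico (w:ℝ) (w+1) ×ˢ (Set.univ : Set (Fin d → ℝ)),
      (∑ ω, (if (|z.1 - b ω| ≤ 3/2 ∧ ∀ k, |z.2 k - (P ω k + z.1 * v ω k)| ≤ r)
        then (1:ℝ≥0∞) else 0)) ^ q ≤
      ∫⁻ z : ℝ × (Fin d → ℝ) in
      Set.Ico (w:ℝ) (w+1) ×ˢ (Set.univ : Set (Fin d → ℝ)),
      (∑ ω : {ω : Ω // |⌊b ω⌋ - w| ≤ 3}, (if (∀ k, |z.2 k - (P ω.1 k + z.1 * v ω.1 k)| ≤ r)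
        then (1:ℝ≥0∞) else 0)) ^ q := by
      apply setLIntegral_mono'
      · exact measurableSet_Ico.prod MeasurableSet.univ
      · intro z hz
        have hz1 : (w:ℝ) ≤ z.1 ∧ z.1 < w + 1 := by
          have := hz.1
          exact ⟨this.1, this.2⟩
        apply ENNReal.rpow_le_rpow _ hq0.le
        have e1 : ∑ ω : {ω : Ω // |⌊b ω⌋ - w| ≤ 3},
            (if (∀ k, |z.2 k - (P ω.1 k + z.1 * v ω.1 k)| ≤ r) then (1:ℝ≥0∞) else 0) =
            ∑ ω ∈ Finset.univ.filter (fun ω : Ω => |⌊b ω⌋ - w| ≤ 3),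
            (if (∀ k, |z.2 k - (P ω k + z.1 * v ω k)| ≤ r) then (1:ℝ≥0∞) else 0) := by
          rw [Finset.sum_subtype (Finset.univ.filter (fun ω : Ω => |⌊b ω⌋ - w| ≤ 3))
            (p := fun ω : Ω => |⌊b ω⌋ - w| ≤ 3) (fun x => by simp)]
        rw [e1, Finset.sum_filter]
        apply Finset.sum_le_sum
        intro ω _
        by_cases hc : |z.1 - b ω| ≤ 3/2 ∧ ∀ k, |z.2 k - (P ω k + z.1 * v ω k)| ≤ r
        · have hb := abs_le.1 hc.1
          have f1 := Int.floor_le (b ω)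
          have f2 := Int.lt_floor_add_one (b ω)
          have g1 : ((⌊b ω⌋ : ℤ) : ℝ) < ((w + 3 : ℤ) : ℝ) := by push_cast; linarith
          have g2 : ((w - 3 : ℤ) : ℝ) < ((⌊b ω⌋ : ℤ) : ℝ) := by push_cast; linarith
          have g1' : ⌊b ω⌋ < w + 3 := by exact_mod_cast g1
          have g2' : w - 3 < ⌊b ω⌋ := by exact_mod_cast g2
          have g3 : |⌊b ω⌋ - w| ≤ 3 := abs_le.2 ⟨by linarith, by linarith⟩
          rw [if_pos hc, if_pos g3, if_pos hc.2]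
        · rw [if_neg hc]
          exact bot_le
    refine h2.trans (h1.trans ?_)
    rw [hcard]
    set c : ℕ := (Finset.univ.filter (fun ω : Ω => |⌊b ω⌋ - w| ≤ 3)).card with hc
    have hcK : (c:ℝ) ≤ K := by
      rw [hK]; exact_mod_cast Finset.card_le_univ _
    have hsum : ∑ ω : Ω, (if |⌊b ω⌋ - w| ≤ 3 then (1:ℝ≥0∞) else 0) = (c : ℝ≥0∞) := by
      rw [← Finset.sum_filter, Finset.sum_const, hc]
      simp
    rw [hsum]
    have hc0 : (0:ℝ) ≤ c := Nat.cast_nonneg _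
    have e2 : (c : ℝ≥0∞) = ENNReal.ofReal (c:ℝ) := by simp
    rw [e2, ← ENNReal.ofReal_mul (by positivity)]
    apply ENNReal.ofReal_le_ofReal
    have e3 : (c:ℝ)^s ≤ K^(s-1) * c := by
      rcases hc0.eq_or_lt with h0 | h0
      · rw [← h0, Real.zero_rpow (by linarith)]; positivity
      · have : (c:ℝ)^s = (c:ℝ)^(s-1) * c := by
          rw [← Real.rpow_add_one h0.ne']; ring_nf
        rw [this]
        gcongr
    calc C * (N:ℝ)^(-(d:ℝ)) * (c:ℝ)^s ≤ C * (N:ℝ)^(-(d:ℝ)) * (K^(s-1) * c) := by gcongr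
      _ = C * (N:ℝ)^(-(d:ℝ)) * K^(s-1) * c := by ring
  -- sum over the windows
  set F : ℝ × (Fin d → ℝ) → ℝ≥0∞ := fun z =>
    (∑ ω, (if (|z.1 - b ω| ≤ 3/2 ∧ ∀ k, |z.2 k - (P ω k + z.1 * v ω k)| ≤ r)
        then (1:ℝ≥0∞) else 0)) ^ q with hF
  have hU : (⋃ w : ℤ, Set.Ico (w:ℝ) (w+1) ×ˢ (Set.univ : Set (Fin d → ℝ))) = Set.univ := by
    ext z
    simp only [Set.mem_iUnion, Set.mem_prod, Set.mem_Ico, Set.mem_univ, and_true, iff_true]
    exact ⟨⌊z.1⌋, Int.floor_le _, Int.lt_floor_add_one _⟩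
  have hdis : Pairwise (Function.onFun Disjoint
      (fun w : ℤ => Set.Ico (w:ℝ) (w+1) ×ˢ (Set.univ : Set (Fin d → ℝ)))) := by
    intro w w' hww
    rw [Function.onFun, Set.disjoint_left]
    rintro z ⟨⟨h1, h2⟩, _⟩ ⟨⟨h3, h4⟩, _⟩
    apply hww
    have a1 : ((w:ℤ):ℝ) < ((w' + 1 : ℤ) : ℝ) := by push_cast; linarith
    have a2 : ((w':ℤ):ℝ) < ((w + 1 : ℤ) : ℝ) := by push_cast; linarith
    have a1' : w < w' + 1 := by exact_mod_cast a1
    have a2' : w' < w + 1 := by exact_mod_cast a2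
    omega
  have hsplit : ∫⁻ z : ℝ × (Fin d → ℝ), F z = ∑' w : ℤ, ∫⁻ z in
      Set.Ico (w:ℝ) (w+1) ×ˢ (Set.univ : Set (Fin d → ℝ)), F z := by
    rw [← lintegral_iUnion (fun w => measurableSet_Ico.prod MeasurableSet.univ) hdis, hU,
      Measure.restrict_univ]
  change ∫⁻ z : ℝ × (Fin d → ℝ), F z ≤ _
  rw [hsplit]
  refine (ENNReal.tsum_le_tsum hwin).trans ?_
  rw [ENNReal.tsum_mul_left]
  have hcount : ∑' w : ℤ, ∑ ω : Ω, (if |⌊b ω⌋ - w| ≤ 3 then (1:ℝ≥0∞) else 0) ≤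
      ENNReal.ofReal (7 * K) := by
    rw [Summable.tsum_finsetSum (fun _ _ => ENNReal.summable)]
    have : ∀ ω : Ω, ∑' w : ℤ, (if |⌊b ω⌋ - w| ≤ 3 then (1:ℝ≥0∞) else 0) ≤ 7 := by
      intro ω
      rw [tsum_eq_sum (s := Finset.Icc (⌊b ω⌋ - 3) (⌊b ω⌋ + 3))]
      · refine (Finset.sum_le_sum (g := fun _ => (1:ℝ≥0∞)) ?_).trans ?_
        · intro w _
          split_ifs <;> simp
        · rw [Finset.sum_const, Int.card_Icc]
          have : (⌊b ω⌋ + 3 + 1 - (⌊b ω⌋ - 3)).toNat = 7 := by omega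
          rw [this]; norm_num
      · intro w hw
        rw [if_neg]
        intro hh
        apply hw
        rw [Finset.mem_Icc]
        have := abs_le.1 hh
        constructor <;> linarith [this.1, this.2]
    refine (Finset.sum_le_sum (fun ω _ => this ω)).trans ?_
    rw [Finset.sum_const, Finset.card_univ, hK, ENNReal.ofReal_mul (by norm_num),
      ENNReal.ofReal_natCast, nsmul_eq_mul, mul_comm]
    simp
  refine (mul_le_mul_right hcount _).trans ?_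
  rw [← ENNReal.ofReal_mul (by positivity)]
  apply ENNReal.ofReal_le_ofReal
  rcases hK0.eq_or_lt with h0 | h0
  · rw [← h0]; simp only [mul_zero]; positivity
  · have : K^s = K^(s-1) * K := by
      rw [← Real.rpow_add_one h0.ne']; ring_nf
    rw [this]
    apply le_of_eq; ring

end Pool.Agent.W46.HM
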