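import Pool.Agent.W46.HD.Stm

/-!
# Kakeya maximal estimates in high dimensions: statements of the parts (project HM)

Same set-up as project HD (`Pool.Agent.W46.HD.Stm`): lines `ω`, heights `j < n`, cells of side `1`,
directions separated by about `1 / n`.  The new point is that the loss is now exactly
`d * lam` (+ small), which gives Kakeya maximal estimates.
-/

set_option autoImplicit false

open Finset
open scoped Classical

namespace Pool.Agent.W46.HM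
open Pool.Agent.W904.AK Pool.Agent.W46.HD

section Defs

variable {Ω : Type} [Fintype Ω] {d n : ℕ}

/-- Expected `psi` of two conditionally independent heights on a line. -/
noncomputable def sep (p : Ω × Fin n → ℝ) : ℝ :=
  ∑ z, glue p p Prod.fst Prod.fst z * psi n z.1.2 z.2.2

/-- Mutual information of the height and the line. -/
noncomputable def mi (p : Ω × Fin n → ℝ) : ℝ := H p Prod.snd - (H p id - H p Prod.fst)

/-- Oracle of two-ends type: exponent `b`, coefficient `G` of the deficiency. -/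
def OrT (n : ℕ) (A D : Ω → Fin d → ℝ) (b G C : ℝ) : Prop :=
  ∀ p : Ω × Fin n → ℝ, IsLaw p → aa p ≤ b * hh A D p + G * lam p + C * (1 + sep p)

/-- General oracle: exponent `b`, coefficient `G` of the deficiency. -/
def OrG (n : ℕ) (A D : Ω → Fin d → ℝ) (b G C : ℝ) : Prop :=
  ∀ p : Ω × Fin n → ℝ, IsLaw p → aa p ≤ b * hh A D p + G * lam p + C

end Defs

/-- Two-ends oracle for all families in dimension `d`. -/
def AllT (d : ℕ) (b G : ℝ) : Prop := ∃ C : ℝ, 0 ≤ C ∧ ∀ (n : ℕ) (Ω : Type) [Fintype Ω]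
    (A D : Ω → Fin d → ℝ), IsFam n D → OrT n A D b G C

/-- General oracle for all families in dimension `d`. -/
def AllG (d : ℕ) (b G : ℝ) : Prop := ∃ C : ℝ, 0 ≤ C ∧ ∀ (n : ℕ) (Ω : Type) [Fintype Ω]
    (A D : Ω → Fin d → ℝ), IsFam n D → OrG n A D b G C

/-- The final inequality: scale invariant, with an error `ε * (log #Ω - H (line | point)) + C`. -/
def AllS (d : ℕ) (b : ℝ) : Prop := ∀ ε : ℝ, 0 < ε → ∃ C : ℝ, 0 ≤ C ∧
    ∀ (n : ℕ) (Ω : Type) [Fintype Ω] (A D : Ω → Fin d → ℝ), IsFam n D →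
    ∀ p : Ω × Fin n → ℝ, IsLaw p →
      aa p ≤ b * (hh A D p + mi p) + d * lam p +
        ε * (Real.log (Fintype.card Ω) - aa p + hh A D p + mi p) + C

/-! ### The step (as in HD, with the losses computed exactly) -/

/-- The conditional oracle. -/
def S_OCG : Prop := ∀ (d n : ℕ) (Ω : Type) [Fintype Ω] (A D : Ω → Fin d → ℝ) (b G C : ℝ),
    OrG n A D b G C →
    ∀ (Θ : Type) [Fintype Θ] (γ : Type) (q : Θ → ℝ) (l : Θ → Ω) (j : Θ → Fin n) (Q : Θ → γ),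
    IsLaw q →
    H q (fun z => (Q z, l z)) - H q Q ≤
      b * (H q (fun z => (Q z, j z, cell A D (j z) (l z))) - H q (fun z => (Q z, j z))) +
      G * (Real.log n - (H q (fun z => (Q z, l z, j z)) - H q (fun z => (Q z, l z)))) + C

/-- Configuration of `Pool.Agent.W46.HD.Cfg` with exact entropies and separations `sep p`. -/
structure CfgT {Ω : Type} [Fintype Ω] {d n : ℕ} (A D : Ω → Fin d → ℝ) (p : Ω × Fin n → ℝ)
    {Θ : Type} [Fintype Θ] (q : Θ → ℝ) (l1 l2 l3 : Θ → Ω) (s0 s1 t t' τ v : Θ → Fin n) :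
    Prop where
  law : IsLaw q
  i0 : ∀ z, q z ≠ 0 → cell A D (s0 z) (l1 z) = cell A D (s0 z) (l3 z)
  i1 : ∀ z, q z ≠ 0 → cell A D (s1 z) (l1 z) = cell A D (s1 z) (l2 z)
  ht : H q (fun z => (t z, cell A D (t z) (l1 z))) - H q t = hh A D p
  ht' : H q (fun z => (t' z, cell A D (t' z) (l3 z))) - H q t' = hh A D p
  hτ : H q (fun z => (τ z, cell A D (τ z) (l2 z))) - H q τ = hh A D p
  hv : H q (fun z => (v z, cell A D (v z) (l2 z))) - H q v = hh A D p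
  tl : H q (fun z => (l1 z, t z)) - H q l1 = Real.log n - lam p
  f1 : H q (fun z => (l1 z, l3 z, s0 z, s1 z)) + 2 * (Real.log n - lam p) ≤
    H q (fun z => (l1 z, l3 z, s0 z, s1 z, t z, t' z))
  f2 : 2 * aa p - hh A D p + 2 * Real.log n - 3 * lam p ≤
    H q (fun z => (l1 z, l3 z, s0 z, s1 z))
  f3 : H q (fun z => (l1 z, l2 z, l3 z, s0 z, s1 z, v z)) + 3 * (Real.log n - lam p) ≤
    H q (fun z => (l1 z, l2 z, l3 z, s0 z, s1 z, v z, t z, τ z, t' z))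
  f4 : 3 * aa p - 2 * hh A D p + 3 * Real.log n - 5 * lam p ≤
    H q (fun z => (l1 z, l2 z, l3 z, s0 z, s1 z, v z))
  mar : H q (fun z => (s0 z, s1 z, v z, cell A D (s0 z) (l1 z), cell A D (v z) (l2 z))) +
      aa p - hh A D p - lam p ≤
    H q (fun z => (s0 z, s1 z, v z, cell A D (v z) (l2 z), l3 z))
  pp : H q (fun z => (s0 z, s1 z, v z, cell A D (s0 z) (l1 z), cell A D (v z) (l2 z))) -
      H q (fun z => (s0 z, s1 z, v z)) =
    H q (fun z => (s0 z, t z, t' z, cell A D (t z) (l1 z), cell A D (t' z) (l3 z))) -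
      H q (fun z => (s0 z, t z, t' z))
  c1 : ∑ z, q z * psi n (s0 z) (s1 z) ≤ sep p
  c2 : ∑ z, q z * psi n (t z) (s0 z) ≤ sep p
  c3 : ∑ z, q z * psi n (t z) (s1 z) ≤ sep p
  c4 : ∑ z, q z * psi n (t' z) (s0 z) ≤ sep p
  c5 : ∑ z, q z * psi n (τ z) (s1 z) ≤ sep p
  c6 : ∑ z, q z * psi n (τ z) (v z) ≤ sep p
  c7 : ∑ z, q z * psi n (v z) (s1 z) ≤ sep p

/-- Existence of the configuration. -/
def S_CFGT : Prop := ∀ (Ω : Type) [Fintype Ω] (d n : ℕ) (A D : Ω → Fin d → ℝ)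
    (p : Ω × Fin n → ℝ), 1 ≤ n → IsLaw p →
    ∃ (Θ : Type) (_ : Fintype Θ) (q : Θ → ℝ) (l1 l2 l3 : Θ → Ω) (s0 s1 t t' τ v : Θ → Fin n),
      CfgT A D p q l1 l2 l3 s0 s1 t t' τ v

/-- The upper bound for `phi`. -/
def S_UPT : Prop := ∀ (d : ℕ) (b G C : ℝ), 1 < b → 0 ≤ G → 0 ≤ C → ∃ C' : ℝ, 0 ≤ C' ∧
    ∀ (n : ℕ) (Ω : Type) [Fintype Ω] (A D : Ω → Fin d → ℝ), IsFam n D → OrG n A D b G C →
    ∀ (p : Ω × Fin n → ℝ), IsLaw p →
    ∀ (Θ : Type) [Fintype Θ] (q : Θ → ℝ) (l1 l2 l3 : Θ → Ω) (s0 s1 t t' τ v : Θ → Fin n),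
    CfgT A D p q l1 l2 l3 s0 s1 t t' τ v →
    2 * aa p - hh A D p + (b - 1) * ph A D q l1 l3 s0 s1 t t' ≤
      b * (H q (fun z => (s0 z, t z, t' z, cell A D (t z) (l1 z), cell A D (t' z) (l3 z))) -
        H q (fun z => (s0 z, t z, t' z))) + (2 * b + 3 + 2 * G) * lam p + C' * (1 + sep p)

/-- The lower bound for `phi`. -/
def S_KTT : Prop := ∀ (d : ℕ) (b G C : ℝ), 1 < b → 0 ≤ G → 0 ≤ C → ∃ C' : ℝ, 0 ≤ C' ∧
    ∀ (n : ℕ) (Ω : Type) [Fintype Ω] (A D : Ω → Fin d → ℝ), IsFam n D → OrG n A D b G C →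
    ∀ (p : Ω × Fin n → ℝ), IsLaw p →
    ∀ (Θ : Type) [Fintype Θ] (q : Θ → ℝ) (l1 l2 l3 : Θ → Ω) (s0 s1 t t' τ v : Θ → Fin n),
    CfgT A D p q l1 l2 l3 s0 s1 t t' τ v →
    3 * aa p - 2 * hh A D p + (b - 1) * (aa p +
      (H q (fun z => (s0 z, s1 z, v z, cell A D (s0 z) (l1 z), cell A D (v z) (l2 z))) -
        H q (fun z => (s0 z, s1 z, v z))) - 2 * hh A D p) ≤
      b * (hh A D p + ph A D q l1 l3 s0 s1 t t') + (3 * b + 4 + 2 * G) * lam p +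
        C' * (1 + sep p)

/-- The base case. -/
def S_BASET : Prop := ∀ d : ℕ, AllT d 2 2

/-- The step. -/
def S_STEPT : Prop := ∀ (d : ℕ) (b G : ℝ), 1 < b → 0 ≤ G → AllG d b G →
    AllT d ((3 * b ^ 2 + 2 * b - 2) / (b ^ 2 + 3 * b - 2))
      ((5 * b ^ 2 + 4 * b - 4 + (4 * b - 2) * G) / (b ^ 2 + 3 * b - 2))

/-! ### The two-ends decomposition of a law on heights -/

/-- Label of a height: the dyadic interval of length `2 ^ lev s` containing `s`. -/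
def lb {n : ℕ} (lev : Fin n → ℕ) (s : Fin n) : ℕ × ℕ := (lev s, (s : ℕ) / 2 ^ lev s)

/-- Greedy decomposition into dyadic intervals: `tm s` is the time at which `s` is removed. -/
def S_GR : Prop := ∀ ε : ℝ, 0 < ε → ε < 1 → ∀ n : ℕ, 1 ≤ n → ∀ μ : Fin n → ℝ, (∀ s, 0 ≤ μ s) →
    ∃ lev tm : Fin n → ℕ, (∀ s, 2 ^ lev s < 2 * n) ∧
      (∀ s s', μ s ≠ 0 → μ s' ≠ 0 → (tm s = tm s' ↔ lb lev s = lb lev s')) ∧
      ∀ s, μ s ≠ 0 → ∀ (c : ℕ) (ρ : ℝ), 1 ≤ ρ →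
        ∑ z, (if tm s ≤ tm z ∧ |((z : ℕ) : ℝ) - (c : ℝ)| ≤ ρ then μ z else 0) ≤
          3 * (2 * ρ / 2 ^ lev s) ^ ε * ∑ z, (if tm z = tm s then μ z else 0)

/-- The two-ends decomposition, with an entropy bound for the labels. -/
def S_TE : Prop := ∀ ε : ℝ, 0 < ε → ε < 1 → ∃ B : ℝ, 0 ≤ B ∧ ∀ n : ℕ, 1 ≤ n →
    ∀ μ : Fin n → ℝ, IsLaw μ → ∃ lev : Fin n → ℕ, (∀ s, 2 ^ lev s < 2 * n) ∧
      (∀ s x : Fin n, ∑ z, (if lb lev z = lb lev s then μ z * max 0 (psi (2 ^ lev s) z x) else 0) ≤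
        B * ∑ z, (if lb lev z = lb lev s then μ z else 0)) ∧
      H μ (lb lev) ≤ B + ε * ∑ x, ∑ y, μ x * μ y *
        max 0 (Real.log (|((x : ℕ) : ℝ) - (y : ℕ)| / 2 ^ lev y))

/-! ### Change of scale -/

/-- Colour of a direction: together with `⌊2 ^ j D⌋` it determines `⌊n D⌋`. -/
noncomputable def col {Ω : Type} {d : ℕ} (n : ℕ) (D : Ω → Fin d → ℝ) (j : ℕ) (ω : Ω) :
    Fin d → ℤ := fun i => ⌊(n : ℝ) * D ω i⌋ % (((n / 2 ^ j : ℕ) : ℤ) + 3)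

/-- Label of (line, height) and colour of the line. -/
noncomputable def QQ {Ω : Type} {d n : ℕ} (D : Ω → Fin d → ℝ) (lev : Ω → Fin n → ℕ)
    (z : Ω × Fin n) : (ℕ × ℕ) × (Fin d → ℤ) :=
  (lb (lev z.1) z.2, col n D (lev z.1 z.2) z.1)

/-- The two-ends oracle at the scale of the label, conditionally on label and colour. -/
def S_LOC : Prop := ∀ (d : ℕ) (b G C : ℝ), 0 ≤ C →
    (∀ (n : ℕ) (Ω : Type) [Fintype Ω] (A D : Ω → Fin d → ℝ), IsFam n D → OrT n A D b G C) →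
    ∀ (n : ℕ) (Ω : Type) [Fintype Ω] (A D : Ω → Fin d → ℝ), IsFam n D →
    ∀ p : Ω × Fin n → ℝ, IsLaw p → ∀ (lev : Ω → Fin n → ℕ) (B : ℝ), 0 ≤ B →
    (∀ (ω : Ω) (s x : Fin n),
      ∑ z, (if lb (lev ω) z = lb (lev ω) s then p (ω, z) * max 0 (psi (2 ^ lev ω s) z x) else 0) ≤
        B * ∑ z, (if lb (lev ω) z = lb (lev ω) s then p (ω, z) else 0)) →
    H p (fun z => (QQ D lev z, z.1)) - H p (QQ D lev) ≤
      b * (H p (fun z => (QQ D lev z, z.2, cell A D z.2 z.1)) -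
        H p (fun z => (QQ D lev z, z.2))) +
      G * (∑ z, p z * Real.log ((2 : ℝ) ^ lev z.1 z.2) -
        (H p (fun z => (QQ D lev z, z.1, z.2)) - H p (fun z => (QQ D lev z, z.1)))) + C * (1 + B)

/-- From the two-ends oracle to the general oracle. -/
def S_TOG : Prop := ∀ (d : ℕ) (b G ε : ℝ), 0 < ε → ε < 1 → 0 ≤ G → AllT d b G →
    AllG d b (1 + max G ((d + ε) / (1 - ε)))

/-- From the two-ends oracle to the final scale invariant inequality. -/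
def S_TOS : Prop := ∀ (d : ℕ) (b G : ℝ), 1 ≤ d → 1 ≤ b → 0 ≤ G → G ≤ d → AllT d b G → AllS d b

/-- The iteration: everything up to the exponent `1.67518`. -/
def S_ITER : Prop := ∀ d : ℕ, 25 ≤ d → AllS d (167518 / 100000)

/-! ### Counting -/

/-- Number of lines of the family through the cell `c` at the height `j`. -/
noncomputable def mult {Ω : Type} [Fintype Ω] {d : ℕ} (A D : Ω → Fin d → ℝ) (j : ℕ)
    (c : Fin d → ℤ) : ℕ := (Finset.univ.filter fun ω => cell A D j ω = c).card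

/-- Level sets of the multiplicity. -/
def S_LEV (c : ℝ) : Prop := ∀ d : ℕ, 25 ≤ d → ∃ C : ℝ, 0 ≤ C ∧
    ∀ (n : ℕ) (Ω : Type) [Fintype Ω] [Nonempty Ω] (A D : Ω → Fin d → ℝ), IsFam n D →
    ∀ (F : Finset (Fin n × (Fin d → ℤ))) (m : ℝ), 1 ≤ m →
    (∀ x ∈ F, m ≤ mult A D x.1 x.2) →
    (F.card : ℝ) ≤ C * n * (Fintype.card Ω : ℝ) ^ (-(1 : ℝ) / d) *
      ((Fintype.card Ω : ℝ) / m) ^ (1 + c / d)

/-- Moments of the multiplicity of the cells. -/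
def S_MOM (q : ℝ) : Prop := ∀ d : ℕ, 25 ≤ d → 1 + (16752 / 10000) / (d : ℝ) ≤ q →
    ∃ C : ℝ, 0 ≤ C ∧ ∀ (n : ℕ) (Ω : Type) [Fintype Ω] [Nonempty Ω] (A D : Ω → Fin d → ℝ),
    IsFam n D → ∀ F : Finset (Fin n × (Fin d → ℤ)),
    ∑ x ∈ F, ((mult A D x.1 x.2 : ℕ) : ℝ) ^ q ≤
      C * n * (Fintype.card Ω : ℝ) ^ (q - 1 / (d : ℝ))

/-! ### Parts of the two-ends decomposition -/

/-- Entropy of a level. -/
def S_HJ : Prop := ∀ ε : ℝ, 0 < ε → ∃ C : ℝ, 0 ≤ C ∧ ∀ (Θ : Type) [Fintype Θ] (q : Θ → ℝ)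
    (j : Θ → ℕ) (θ : ℝ), IsLaw q → H q j ≤ C + ε * ∑ z, q z * |(j z : ℝ) * Real.log 2 - θ|

/-- The two-ends sum from the greedy property. -/
def S_TESUM : Prop := ∀ ε : ℝ, 0 < ε → ε < 1 → ∃ B : ℝ, 0 ≤ B ∧ ∀ n : ℕ, 1 ≤ n →
    ∀ μ : Fin n → ℝ, (∀ s, 0 ≤ μ s) → ∀ lev tm : Fin n → ℕ,
      (∀ s s', μ s ≠ 0 → μ s' ≠ 0 → (tm s = tm s' ↔ lb lev s = lb lev s')) →
      (∀ s, μ s ≠ 0 → ∀ (c : ℕ) (ρ : ℝ), 1 ≤ ρ →
        ∑ z, (if tm s ≤ tm z ∧ |((z : ℕ) : ℝ) - (c : ℝ)| ≤ ρ then μ z else 0) ≤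
          3 * (2 * ρ / 2 ^ lev s) ^ ε * ∑ z, (if tm z = tm s then μ z else 0)) →
      ∀ s x : Fin n, ∑ z, (if lb lev z = lb lev s then μ z * max 0 (psi (2 ^ lev s) z x) else 0) ≤
        B * ∑ z, (if lb lev z = lb lev s then μ z else 0)

/-- Abel summation: removing masses in order of time. -/
def S_ABEL : Prop := ∀ (Θ : Type) [Fintype Θ] (μ : Θ → ℝ) (tm : Θ → ℕ), (∀ s, 0 ≤ μ s) →
    ∑ y, μ y * -Real.log (∑ z, (if tm y ≤ tm z then μ z else 0)) ≤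
      (∑ y, μ y) * (1 - Real.log (∑ y, μ y))

/-- Shells around a point. -/
def S_SHELL : Prop := ∀ ε : ℝ, 0 < ε → ∃ C : ℝ, 0 ≤ C ∧ ∀ n : ℕ, 1 ≤ n →
    ∀ μ : Fin n → ℝ, IsLaw μ → ∀ (tm : Fin n → ℕ) (x : Fin n) (θ : ℝ),
      ∑ y, μ y * -Real.log (∑ z, (if tm y ≤ tm z ∧
          |((z : ℕ) : ℝ) - (y : ℕ)| ≤ max 1 |((x : ℕ) : ℝ) - (y : ℕ)| then μ z else 0)) ≤
        C + ε * ∑ y, μ y * |Real.log (max 1 |((x : ℕ) : ℝ) - (y : ℕ)|) - θ|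

/-- One label and one colour. -/
def S_LOC1 : Prop := ∀ (d : ℕ) (b G C : ℝ), 0 ≤ C →
    (∀ (n : ℕ) (Ω : Type) [Fintype Ω] (A D : Ω → Fin d → ℝ), IsFam n D → OrT n A D b G C) →
    ∀ (n : ℕ) (Ω : Type) [Fintype Ω] (A D : Ω → Fin d → ℝ), IsFam n D →
    ∀ (j a : ℕ) (ρ : Fin d → ℤ) (q : Ω × Fin n → ℝ), IsLaw q → ∀ B : ℝ, 0 ≤ B →
    (∀ z, q z ≠ 0 → (z.2 : ℕ) / 2 ^ j = a ∧ col n D j z.1 = ρ) →
    (∀ (ω : Ω) (x : Fin n), ∑ z, q (ω, z) * max 0 (psi (2 ^ j) z x) ≤ B * ∑ z, q (ω, z)) →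
    H q Prod.fst ≤ b * (H q (fun z => (z.2, cell A D z.2 z.1)) - H q Prod.snd) +
      G * (Real.log ((2 : ℝ) ^ j) - (H q id - H q Prod.fst)) + C * (1 + B)

end Pool.Agent.W46.HM
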