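import Pool.Agent.W46.HM.UPT
import Pool.Agent.W46.HM.KTT
import Pool.Agent.W46.HM.Ocg
import Pool.Agent.W46.HD.Main
import Pool.Agent.W135.HM.CFGT
import Pool.Agent.W308.HM.BaseStep
import Pool.Agent.W320.HM.GR
import Pool.Agent.W405.HM.TeSum
import Pool.Agent.W440.HM.AbelHj
import Pool.Agent.W32.HM.Shell
import Pool.Agent.W253.HM.TE
import Pool.Agent.W305.HM.LOC1
import Pool.Agent.W215.HM.Loc
import Pool.Agent.W369.HM.TOG
import Pool.Agent.W349.HM.ITER
import Pool.Agent.W372.HM.LevMom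
import Pool.Agent.W349.HM.TOS

/-! # Project HM: the combinatorial core -/

set_option autoImplicit false

namespace Pool.Agent.W46.HM
open Pool.Agent.W46.HD

theorem upt : S_UPT := UPT W85.HD.COST W85.HD.INT OCG W975.HD.G0 W975.HD.G3
  W505.HD.G4 W505.HD.G6 W505.HD.G9

theorem ktt : S_KTT := KTT W85.HD.COST W85.HD.INT OCG W975.HD.G0 W975.HD.G1 W975.HD.G3
  W505.HD.G4 W505.HD.G5 W505.HD.G6 W505.HD.G9

theorem baset : S_BASET := W308.HM.BASET W85.HD.COST W975.HD.G1

theorem stept : S_STEPT := W308.HM.STEPT upt ktt W135.HM.CFGT W976.HD.PSI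

theorem hj : S_HJ := W440.HM.HJ W85.HD.GIBBS

theorem te : S_TE := W253.HM.TE W320.HM.GR W405.HM.TESUM (W32.HM.SHELL W440.HM.ABEL hj)

theorem loc : S_LOC := W215.HM.LOC W305.HM.LOC1

theorem tog : S_TOG := W369.HM.TOG te loc hj W85.HD.COST W976.HD.PSI

theorem tos : S_TOS := W349.HM.TOS te loc hj W85.HD.COST W975.HD.G1 W976.HD.PSI

/-- The scale invariant inequality with exponent `1.67518` in all dimensions `d ≥ 25`. -/
theorem iter : S_ITER := W349.HM.ITER baset stept tog tos W976.HD.PSI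

theorem lev : S_LEV (167519 / 100000) := W372.HM.LEV iter

theorem mom (q : ℝ) : S_MOM q := W372.HM.MOM lev q

end Pool.Agent.W46.HM
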