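import Pool.Agent.W46.HM.Stm2
import Pool.Agent.W46.HM.Core
import Pool.Agent.W46.HM.Allw
import Pool.Agent.W22.HM.WIN
import Pool.Agent.W605.HM.TubeQ
import Pool.Agent.W101.HM.Weak
import Pool.Agent.W131.HM.CapVol
import Pool.Agent.W902.HM.STRONG

/-!
# Kakeya maximal estimates in high dimensions (project HM): the final theorems
-/

set_option autoImplicit false

namespace Pool.Agent.W46.HM

/-- The `L^q` norm of a sum of `δ`-tubes with `δ`-separated directions. -/
theorem tubeq (q : ℝ) : S_TUBEQ q :=
  Pool.Agent.W605.HM.TUBEQ q (allw q (Pool.Agent.W22.HM.WIN q (mom q)))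

/-- Weak type estimate for the Kakeya maximal function. -/
theorem weak : S_WEAK :=
  Pool.Agent.W101.HM.weak tubeq Pool.Agent.W131.HM.CAP Pool.Agent.W131.HM.VOL

/-- Strong type estimate for the Kakeya maximal function. -/
theorem strong : S_STRONG := Pool.Agent.W902.HM.STRONG weak

end Pool.Agent.W46.HM
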