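import Pool.Agent.W46.HM.Stm
import Pool.Agent.W46.KK.Tubes

/-!
# Kakeya maximal estimates in high dimensions: the geometric parts (project HM)
-/

set_option autoImplicit false

open Finset MeasureTheory
open scoped Classical ENNReal

namespace Pool.Agent.W46.HM
open Pool.Agent.W46.KK

/-- One window of heights. -/
def S_WIN (q : ℝ) : Prop := ∀ d : ℕ, 25 ≤ d → 1 + (16752 / 10000) / (d : ℝ) ≤ q → ∀ R : ℝ, 0 < R →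
    ∃ C : ℝ, 0 ≤ C ∧ ∀ (N : ℕ) (Ω : Type) [Fintype Ω] (P v : Ω → Fin d → ℝ) (t0 r : ℝ), 1 ≤ N →
    0 ≤ r → N * r ≤ R → (∀ ω k, |v ω k| ≤ 1) →
    (∀ ω ω', (∀ k, ⌊(N : ℝ) * ((v ω k + 1) / 2)⌋ = ⌊(N : ℝ) * ((v ω' k + 1) / 2)⌋) → ω = ω') →
    ∫⁻ z : ℝ × (Fin d → ℝ) in Set.Ico t0 (t0 + 1) ×ˢ (Set.univ : Set (Fin d → ℝ)),
      (∑ ω, (if (∀ k, |z.2 k - (P ω k + z.1 * v ω k)| ≤ r) then (1 : ℝ≥0∞) else 0)) ^ q ≤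
    ENNReal.ofReal (C * (N : ℝ) ^ (-(d : ℝ)) * (Fintype.card Ω : ℝ) ^ (q - 1 / (d : ℝ)))

/-- All heights, tubes of length about one at arbitrary heights. -/
def S_ALLW (q : ℝ) : Prop := ∀ d : ℕ, 25 ≤ d → 1 + (16752 / 10000) / (d : ℝ) ≤ q → ∀ R : ℝ, 0 < R →
    ∃ C : ℝ, 0 ≤ C ∧ ∀ (N : ℕ) (Ω : Type) [Fintype Ω] (P v : Ω → Fin d → ℝ) (b : Ω → ℝ) (r : ℝ),
    1 ≤ N → 0 ≤ r → N * r ≤ R → (∀ ω k, |v ω k| ≤ 1) →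
    (∀ ω ω', (∀ k, ⌊(N : ℝ) * ((v ω k + 1) / 2)⌋ = ⌊(N : ℝ) * ((v ω' k + 1) / 2)⌋) → ω = ω') →
    ∫⁻ z : ℝ × (Fin d → ℝ), (∑ ω, (if (|z.1 - b ω| ≤ 3 / 2 ∧
        ∀ k, |z.2 k - (P ω k + z.1 * v ω k)| ≤ r) then (1 : ℝ≥0∞) else 0)) ^ q ≤
    ENNReal.ofReal (C * (N : ℝ) ^ (-(d : ℝ)) * (Fintype.card Ω : ℝ) ^ (q - 1 / (d : ℝ)))

/-- The `L^q` norm of a sum of `δ`-tubes with `δ`-separated directions. -/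
def S_TUBEQ (q : ℝ) : Prop := ∀ d : ℕ, 25 ≤ d → 1 + (16752 / 10000) / (d : ℝ) ≤ q →
    ∃ C : ℝ, 0 < C ∧ ∀ δ : ℝ, 0 < δ → δ ≤ 1 → ∀ (ι : Type) [Fintype ι]
    (a e : ι → EuclideanSpace ℝ (Fin (d + 1))), (∀ i, ‖e i‖ = 1) →
    (∀ i j, i ≠ j → δ ≤ ‖e i - e j‖) →
    ∫⁻ x, (∑ i, (tube δ (a i) (e i)).indicator (fun _ => (1 : ℝ≥0∞)) x) ^ q ≤
      ENNReal.ofReal (C * δ ^ (d : ℝ) * (Fintype.card ι : ℝ) ^ (q - 1 / (d : ℝ)))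

/-- The Kakeya maximal function of a nonnegative function. -/
noncomputable def kmax {n : ℕ} (δ : ℝ) (f : EuclideanSpace ℝ (Fin n) → ℝ≥0∞)
    (e : EuclideanSpace ℝ (Fin n)) : ℝ≥0∞ :=
  ⨆ a : EuclideanSpace ℝ (Fin n), (volume (tube δ a e))⁻¹ * ∫⁻ y in tube δ a e, f y

/-- Caps of the sphere. -/
def S_CAP : Prop := ∀ d : ℕ, ∃ C : ℝ, 0 < C ∧
    ∀ (e : Metric.sphere (0 : EuclideanSpace ℝ (Fin (d + 1))) 1) (δ : ℝ), 0 < δ → δ ≤ 1 →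
    (volume : Measure (EuclideanSpace ℝ (Fin (d + 1)))).toSphere (Metric.closedBall e δ) ≤
      ENNReal.ofReal (C * δ ^ d)

/-- Volume of a tube. -/
def S_VOL : Prop := ∀ d : ℕ, ∃ κ : ℝ, 0 < κ ∧
    ∀ (a e : EuclideanSpace ℝ (Fin (d + 1))) (δ : ℝ), ‖e‖ = 1 → 0 < δ → δ ≤ 1 →
    ENNReal.ofReal (κ * δ ^ d) ≤ volume (tube δ a e) ∧ volume (tube δ a e) ≠ ⊤

/-- Weak type estimate for the Kakeya maximal function: `c = 1.6752`, `p = 1 + d / c`,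
from `L^p` to weak `L^(d + c)`. -/
def S_WEAK : Prop := ∀ d : ℕ, 25 ≤ d → ∃ C : ℝ, 0 < C ∧ ∀ δ : ℝ, 0 < δ → δ < 1 →
    ∀ f : EuclideanSpace ℝ (Fin (d + 1)) → ℝ≥0∞, AEMeasurable f volume →
    ∀ l : ℝ, 0 < l →
    (volume : Measure (EuclideanSpace ℝ (Fin (d + 1)))).toSphere
        {e | ENNReal.ofReal l < kmax δ f (e : EuclideanSpace ℝ (Fin (d + 1)))} ≤
      ENNReal.ofReal (C * δ ^ (-((16752 / 10000 - 1) * (d : ℝ))) *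
        l ^ (-((d : ℝ) + 16752 / 10000))) *
      (∫⁻ y, f y ^ (1 + (d : ℝ) / (16752 / 10000))) ^ ((16752 : ℝ) / 10000)

/-- Strong type estimate: `‖f*_δ‖_p ≤ C δ ^ (1 - n / p) ‖f‖_p`, `n = d + 1`, `p = 1 + d / c`. -/
def S_STRONG : Prop := ∀ d : ℕ, 25 ≤ d → ∃ C : ℝ, 0 < C ∧ ∀ δ : ℝ, 0 < δ → δ < 1 →
    ∀ f : EuclideanSpace ℝ (Fin (d + 1)) → ℝ≥0∞, AEMeasurable f volume →
    ∫⁻ e : Metric.sphere (0 : EuclideanSpace ℝ (Fin (d + 1))) 1,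
        kmax δ f e ^ (1 + (d : ℝ) / (16752 / 10000))
        ∂(volume : Measure (EuclideanSpace ℝ (Fin (d + 1)))).toSphere ≤
      ENNReal.ofReal (C * δ ^ (-((d : ℝ) - (d : ℝ) / (16752 / 10000)))) *
        ∫⁻ y, f y ^ (1 + (d : ℝ) / (16752 / 10000))

end Pool.Agent.W46.HM
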